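import Pool.Agent.N474.MD.Rate

/-! The asymptotic theorem on middle distances. -/

set_option autoImplicit false

open Filter
open scoped Topology

namespace Pool.Agent.N474.MD

open Pool.Agent.TH220.NT

/-- small `η` -/
theorem exists_eta {δ s Γ η₀ : ℝ} (h0 : 0 < δ) (h1 : δ < 1 / 2) (hs : 0 < s) (hη₀ : 0 < η₀)
    (hΓ : 0 < Γ) (hΓd : Γ = (1 - 2 * δ) ^ 2 / (1 - δ) - (1 - 2 * (2 * δ * (1 - δ)))) :
    ∃ η : ℝ, 0 < η ∧ η ≤ η₀ ∧ (1 + η) * δ < 2 * δ * (1 - δ) - η ∧ (1 + η) * δ < 1 / 2 ∧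
      1 - 2 * (2 * δ * (1 - δ)) + 2 * η - (1 - 2 * ((1 + η) * δ)) ^ 2 ≤ s * (4 * δ * (1 - δ)) ∧
      Γ / 2 ≤ (1 - 2 * ((1 + η) * δ)) ^ 2 / (1 - δ) - (1 - 2 * (2 * δ * (1 - δ)) + 2 * η) ∧
      2 * η ≤ s / 2 := by
  have h1δ : 0 < 1 - δ := by linarith
  have hx : δ < 2 * δ * (1 - δ) := by nlinarith
  have e1 : ∀ᶠ η in 𝓝 (0 : ℝ), η ≤ η₀ := eventually_le_nhds hη₀
  have e2 : ∀ᶠ η in 𝓝 (0 : ℝ), (1 + η) * δ < 2 * δ * (1 - δ) - η := by
    refine ContinuousAt.eventually_lt (by fun_prop) (by fun_prop) ?_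
    simpa using hx
  have e3 : ∀ᶠ η in 𝓝 (0 : ℝ), (1 + η) * δ < 1 / 2 := by
    refine ContinuousAt.eventually_lt (by fun_prop) (by fun_prop) ?_
    simpa using h1
  have e4 : ∀ᶠ η in 𝓝 (0 : ℝ),
      1 - 2 * (2 * δ * (1 - δ)) + 2 * η - (1 - 2 * ((1 + η) * δ)) ^ 2 < s * (4 * δ * (1 - δ)) := by
    refine ContinuousAt.eventually_lt (by fun_prop) (by fun_prop) ?_
    have h2 : 0 < s * (4 * δ * (1 - δ)) := by positivity
    have h3 : 1 - 2 * (2 * δ * (1 - δ)) + 2 * 0 - (1 - 2 * ((1 + 0) * δ)) ^ 2 = 0 := by ring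
    rw [h3]
    exact h2
  have e5 : ∀ᶠ η in 𝓝 (0 : ℝ),
      Γ / 2 < (1 - 2 * ((1 + η) * δ)) ^ 2 / (1 - δ) - (1 - 2 * (2 * δ * (1 - δ)) + 2 * η) := by
    refine ContinuousAt.eventually_lt (by fun_prop) (by fun_prop) ?_
    have h3 : (1 - 2 * ((1 + 0) * δ)) ^ 2 / (1 - δ) - (1 - 2 * (2 * δ * (1 - δ)) + 2 * 0) = Γ := by
      rw [hΓd]; ring
    rw [h3]
    linarith
  have e6 : ∀ᶠ η in 𝓝 (0 : ℝ), 2 * η < s / 2 := by
    refine ContinuousAt.eventually_lt (by fun_prop) (by fun_prop) ?_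
    simpa using hs
  obtain ⟨η, ⟨g1, g2, g3, g4, g5, g6⟩, g7⟩ := (((e1.and (e2.and (e3.and (e4.and
    (e5.and e6))))).filter_mono (nhdsWithin_le_nhds (s := Set.Ioi 0))).and
      self_mem_nhdsWithin).exists
  exact ⟨η, g7, g1, g2, g3, g4.le, g5.le, g6.le⟩

open Classical in
/-- The words of `C` with at most `κ` codewords at distance strictly between `a` and `b`
(real numbers). -/
noncomputable def fewMid {n : ℕ} (C : Finset (Fin n → Bool)) (a b κ : ℝ) :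
    Finset (Fin n → Bool) :=
  C.filter (fun x => ((C.filter (fun y => a < (hammingDist x y : ℝ) ∧
    (hammingDist x y : ℝ) < b)).card : ℝ) ≤ κ)

theorem fewMid_eq {n : ℕ} (C : Finset (Fin n → Bool)) {a b κ : ℝ} (ha : 0 ≤ a) (hκ : 0 ≤ κ) :
    fewMid C a b κ = few C ⌊a⌋₊ ⌈b⌉₊ ⌊κ⌋₊ := by
  unfold fewMid few
  ext x
  rw [Finset.mem_filter, Finset.mem_filter, Nat.le_floor_iff hκ]
  have : (C.filter (fun y => a < (hammingDist x y : ℝ) ∧ (hammingDist x y : ℝ) < b)) =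
      (C.filter (fun y => ⌊a⌋₊ < hammingDist x y ∧ hammingDist x y < ⌈b⌉₊)) := by
    ext y
    rw [Finset.mem_filter, Finset.mem_filter, Nat.floor_lt ha, Nat.lt_ceil]
  rw [this]

theorem choose_pow (W L : ℕ) : (W + L).choose W ≤ (W + L) ^ L := by
  have a1 : (W + L).choose W = (W + L).choose L := by
    rw [← Nat.choose_symm_add]
  rw [a1]
  exact Nat.choose_le_pow _ _

/-- the two geometric conditions -/
theorem est1 {δ x0 η s Γ n d b e : ℝ} {L : ℕ} (h1 : δ < 1 / 2)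
    (hx0 : x0 < 1 / 2) (hη : 0 < η) (hs : 0 < s) (hn : 3 ≤ n)
    (hη2 : (1 + η) * δ < 1 / 2)
    (hη3 : 1 - 2 * x0 + 2 * η - (1 - 2 * ((1 + η) * δ)) ^ 2 ≤ s * (4 * δ * (1 - δ)))
    (hη4 : Γ / 2 ≤ (1 - 2 * ((1 + η) * δ)) ^ 2 / (1 - δ) - (1 - 2 * x0 + 2 * η))
    (hL : 2 < ((L : ℝ) + 1) * (Γ / 2))
    (hd0 : 0 ≤ d) (hd1 : δ * n ≤ d) (hd2 : 2 * d < n) (hb : b ≤ (1 + η) * δ * n)
    (he1 : (x0 - η) * n ≤ e) (he2 : e < (x0 - η) * n + 1) :
    2 * e < (L + 1) * ((n - 2 * b) ^ 2 / (n - d) - (n - 2 * e)) ∧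
      n - 2 * e - (n - 2 * b) ^ 2 / n ≤ s * (4 * d * (n - d) / n) := by
  have hn0 : 0 < n := by linarith
  have h1δ : 0 < 1 - δ := by linarith
  have hq : 0 ≤ 1 - 2 * ((1 + η) * δ) := by linarith
  have hsq : (1 - 2 * ((1 + η) * δ)) ^ 2 * n ≤ (n - 2 * b) ^ 2 / n := by
    rw [le_div_iff₀ hn0]
    have h2 : (1 - 2 * ((1 + η) * δ)) * n ≤ n - 2 * b := by
      have e1 : (1 - 2 * ((1 + η) * δ)) * n = n - 2 * ((1 + η) * δ * n) := by ring
      rw [e1]; linarith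
    have h3 := pow_le_pow_left₀ (mul_nonneg hq hn0.le) h2 2
    calc (1 - 2 * ((1 + η) * δ)) ^ 2 * n * n = ((1 - 2 * ((1 + η) * δ)) * n) ^ 2 := by ring
      _ ≤ _ := h3
  have hnd : 0 < n - d := by linarith
  have hnd2 : n - d ≤ (1 - δ) * n := by
    have e1 : (1 - δ) * n = n - δ * n := by ring
    rw [e1]; linarith
  have hsq2 : (1 - 2 * ((1 + η) * δ)) ^ 2 / (1 - δ) * n ≤ (n - 2 * b) ^ 2 / (n - d) := by
    have h2 : (n - 2 * b) ^ 2 / ((1 - δ) * n) ≤ (n - 2 * b) ^ 2 / (n - d) :=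
      div_le_div_of_nonneg_left (sq_nonneg _) hnd hnd2
    refine le_trans ?_ h2
    have h3 : (n - 2 * b) ^ 2 / ((1 - δ) * n) = (n - 2 * b) ^ 2 / n / (1 - δ) := by
      rw [div_div]; congr 1; ring
    rw [h3, div_mul_eq_mul_div]
    exact div_le_div_of_nonneg_right hsq h1δ.le
  have hen : n - 2 * e ≤ (1 - 2 * x0 + 2 * η) * n := by
    have e1 : (1 - 2 * x0 + 2 * η) * n = n - 2 * ((x0 - η) * n) := by ring
    rw [e1]; linarith
  constructor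
  · have h2 : Γ / 2 * n ≤ (n - 2 * b) ^ 2 / (n - d) - (n - 2 * e) := by
      have h3 := mul_le_mul_of_nonneg_right hη4 hn0.le
      rw [sub_mul] at h3
      linarith
    have h3 : ((L : ℝ) + 1) * (Γ / 2 * n) ≤
        (L + 1) * ((n - 2 * b) ^ 2 / (n - d) - (n - 2 * e)) :=
      mul_le_mul_of_nonneg_left h2 (by positivity)
    have h4 : 2 * n < ((L : ℝ) + 1) * (Γ / 2 * n) := by
      have h5 := mul_lt_mul_of_pos_right hL hn0
      rwa [mul_assoc] at h5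
    have h5 : e ≤ n := by
      have : (x0 - η) * n ≤ 1 / 2 * n := mul_le_mul_of_nonneg_right (by linarith) hn0.le
      linarith
    linarith
  · have h2 := mul_le_mul_of_nonneg_right hη3 hn0.le
    rw [sub_mul] at h2
    have h3 : δ * (1 - δ) * n ≤ d * (n - d) / n := by
      rw [le_div_iff₀ hn0]
      have h4 : 0 ≤ (d - δ * n) * (n - d - δ * n) := by
        apply mul_nonneg (by linarith)
        linarith
      have e1 : (d - δ * n) * (n - d - δ * n) = d * (n - d) - δ * (1 - δ) * n * n := by ring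
      rw [e1] at h4
      linarith
    have h4 : s * (4 * δ * (1 - δ)) * n ≤ s * (4 * d * (n - d) / n) := by
      have e1 : s * (4 * δ * (1 - δ)) * n = (4 * s) * (δ * (1 - δ) * n) := by ring
      have e2 : s * (4 * d * (n - d) / n) = (4 * s) * (d * (n - d) / n) := by ring
      rw [e1, e2]
      exact mul_le_mul_of_nonneg_left h3 (by positivity)
    linarith

/-- the exponents -/
theorem est2 {n g r c h τ F A0 I0 C0 K0 : ℝ} {L : ℕ} (hg : 0 < g) (hn : 0 < n)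
    (hgr : g = (1 - h - r) * Real.log 2)
    (hc : c * Real.log 2 = g / 8) (hτ : τ = g / (4 * (L + 1)))
    (hbn : Real.log 4 ≤ n * (g / 2))
    (hF : F ≤ A0 * (I0 * C0 + 1) * (K0 + 1)) (hA0 : 0 ≤ A0) (hI0 : 0 ≤ I0) (hC0 : 0 ≤ C0)
    (hK0 : 0 ≤ K0)
    (hA : A0 ≤ (2 : ℝ) ^ (r * n)) (hI : I0 ≤ Real.exp (n * τ)) (hC : C0 ≤ Real.exp (n * τ) ^ L)
    (hK : K0 ≤ (2 : ℝ) ^ (c * n)) : F ≤ (2 : ℝ) ^ ((1 - h - c) * n) := by
  refine hF.trans ?_
  have hX : I0 * C0 + 1 ≤ 2 * Real.exp (n * (g / 4)) := by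
    have h2 : I0 * C0 ≤ Real.exp (n * (g / 4)) := by
      calc I0 * C0 ≤ Real.exp (n * τ) * Real.exp (n * τ) ^ L :=
            mul_le_mul hI hC hC0 (Real.exp_pos _).le
        _ = Real.exp (n * (g / 4)) := by
            rw [← Real.exp_nat_mul, ← Real.exp_add]
            congr 1
            rw [hτ]
            field_simp
            ring
    have h3 : 1 ≤ Real.exp (n * (g / 4)) := Real.one_le_exp (by positivity)
    linarith
  have h2c : (2 : ℝ) ^ (c * n) = Real.exp (n * (g / 8)) := by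
    rw [Real.rpow_def_of_pos (by norm_num)]
    congr 1
    rw [← hc]; ring
  have hY : K0 + 1 ≤ 2 * Real.exp (n * (g / 8)) := by
    rw [h2c] at hK
    have h3 : 1 ≤ Real.exp (n * (g / 8)) := Real.one_le_exp (by positivity)
    linarith
  have h2r : (2 : ℝ) ^ (r * n) = Real.exp (n * (r * Real.log 2)) := by
    rw [Real.rpow_def_of_pos (by norm_num)]
    congr 1
    ring
  have h2f : (2 : ℝ) ^ ((1 - h - c) * n) = Real.exp (n * ((1 - h - c) * Real.log 2)) := by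
    rw [Real.rpow_def_of_pos (by norm_num)]
    congr 1
    ring
  rw [h2r] at hA
  rw [h2f]
  have h4 : (4 : ℝ) = Real.exp (Real.log 4) := (Real.exp_log (by norm_num)).symm
  have hI1 : 0 ≤ I0 * C0 + 1 := by positivity
  have hK1 : 0 ≤ K0 + 1 := by positivity
  calc A0 * (I0 * C0 + 1) * (K0 + 1)
      ≤ Real.exp (n * (r * Real.log 2)) * (2 * Real.exp (n * (g / 4))) *
        (2 * Real.exp (n * (g / 8))) := by
        apply mul_le_mul _ hY hK1 (by positivity)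
        exact mul_le_mul hA hX hI1 (by positivity)
    _ = 4 * Real.exp (n * (r * Real.log 2 + g / 4 + g / 8)) := by
        have : n * (r * Real.log 2 + g / 4 + g / 8) =
          n * (r * Real.log 2) + n * (g / 4) + n * (g / 8) := by ring
        rw [this, Real.exp_add, Real.exp_add]
        ring
    _ = Real.exp (Real.log 4 + n * (r * Real.log 2 + g / 4 + g / 8)) := by
        rw [Real.exp_add, ← h4]
    _ ≤ _ := by
        apply Real.exp_le_exp.2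
        have h5 : (1 - h - c) * Real.log 2 = r * Real.log 2 + g - g / 8 := by
          rw [sub_mul, hc, hgr]
          ring
        rw [h5]
        have h6 : n * (r * Real.log 2 + g - g / 8) = n * (r * Real.log 2 + g / 4 + g / 8) +
          n * (g / 2) := by ring
        rw [h6]
        linarith

/-- the clique parameter -/
theorem est3 {η s : ℝ} (hη : 0 < η) (hs : 0 < s) (hs1 : s < 1) (hη5 : 2 * η ≤ s / 2) :
    ∃ J : ℕ, 1 ≤ J ∧ cosB (√(1 + η)) 1 J ≤ s := by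
  obtain ⟨J', hJ'⟩ := exists_nat_gt (2 / s)
  refine ⟨J' + 1, by omega, ?_⟩
  have hJ : (1 : ℝ) / ((J' + 1 : ℕ) : ℝ) ≤ s / 2 := by
    have hJp : (0 : ℝ) < ((J' + 1 : ℕ) : ℝ) := by positivity
    rw [div_le_iff₀ hJp]
    rw [div_lt_iff₀ hs] at hJ'
    push_cast
    nlinarith
  have hα2 : √(1 + η) ^ 2 = 1 + η := Real.sq_sqrt (by linarith)
  unfold cosB
  rw [hα2]
  have hJ0 : (0 : ℝ) ≤ 1 / ((J' + 1 : ℕ) : ℝ) := by positivity
  have hden : 0 < 2 * (1 + η) - 1 + 1 / ((J' + 1 : ℕ) : ℝ) := by linarith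
  have h2 : 1 - s ≤ 1 ^ 2 / (2 * (1 + η) - 1 + 1 / ((J' + 1 : ℕ) : ℝ)) := by
    rw [le_div_iff₀ hden]
    have h3 : 2 * (1 + η) - 1 + 1 / ((J' + 1 : ℕ) : ℝ) ≤ 1 + s := by linarith
    have h4 : 0 ≤ 1 - s := by linarith
    calc (1 - s) * (2 * (1 + η) - 1 + 1 / ((J' + 1 : ℕ) : ℝ)) ≤ (1 - s) * (1 + s) :=
          mul_le_mul_of_nonneg_left h3 h4
      _ ≤ 1 ^ 2 := by nlinarith
  linarith

/-- the number of words seen from two words, in terms of a spherical code -/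
theorem est4 {n L J : ℕ} {s α X : ℝ} (hs1 : s < 1) (hcos : cosB α 1 J ≤ s)
    (hX : ((J : ℝ) + L + 1) * codeMax (n + 1) s ≤ X) :
    (((J + codeMax (n + 1) (cosB α 1 J) + L).choose (J + codeMax (n + 1) (cosB α 1 J)) : ℕ) : ℝ)
      ≤ X ^ L := by
  have h2 : codeMax (n + 1) (cosB α 1 J) ≤ codeMax (n + 1) s := codeMax_mono _ hcos hs1
  have h3 : 1 ≤ codeMax (n + 1) s := codeMax_pos (Nat.succ_pos n) hs1
  generalize codeMax (n + 1) (cosB α 1 J) = M1 at *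
  generalize codeMax (n + 1) s = M2 at *
  have hWL : ((J + M1 + L : ℕ) : ℝ) ≤ X := by
    refine le_trans ?_ hX
    have h4 : J + M1 + L ≤ (J + L + 1) * M2 := by
      calc J + M1 + L ≤ J * M2 + M2 + L * M2 := by
            have a1 : J ≤ J * M2 := Nat.le_mul_of_pos_right _ h3
            have a2 : L ≤ L * M2 := Nat.le_mul_of_pos_right _ h3
            omega
        _ = _ := by ring
    exact_mod_cast h4
  calc (((J + M1 + L).choose (J + M1) : ℕ) : ℝ) ≤ (((J + M1 + L) ^ L : ℕ) : ℝ) := by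
        exact_mod_cast choose_pow (J + M1) L
    _ = ((J + M1 + L : ℕ) : ℝ) ^ L := by push_cast; ring
    _ ≤ _ := pow_le_pow_left₀ (Nat.cast_nonneg _) hWL L

/-- one length -/
theorem middle_n {δ x0 η η₀ s Γ g r c τ α : ℝ} {L J n : ℕ}
    (h0 : 0 < δ) (h1 : δ < 1 / 2) (hx0 : x0 < 1 / 2) (hη : 0 < η) (hηη₀ : η ≤ η₀)
    (hs : 0 < s) (hs1 : s < 1) (hn3 : 3 ≤ n) (hb3 : 3 / (1 - 2 * δ) ≤ (n : ℝ))
    (hη1 : (1 + η) * δ < x0 - η) (hη2 : (1 + η) * δ < 1 / 2)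
    (hη3 : 1 - 2 * x0 + 2 * η - (1 - 2 * ((1 + η) * δ)) ^ 2 ≤ s * (4 * δ * (1 - δ)))
    (hη4 : Γ / 2 ≤ (1 - 2 * ((1 + η) * δ)) ^ 2 / (1 - δ) - (1 - 2 * x0 + 2 * η))
    (hL : 2 < ((L : ℝ) + 1) * (Γ / 2)) (hJ : 1 ≤ J) (hα1 : 1 ≤ α) (hα2 : α ^ 2 = 1 + η)
    (hcos : cosB α 1 J ≤ s) (hg : 0 < g) (hgr : g = (1 - H δ - r) * Real.log 2)
    (hc : c * Real.log 2 = g / 8) (hτ : τ = g / (4 * (L + 1)))
    (hbn : Real.log 4 ≤ n * (g / 2))
    (hAn : (A n ⌈(x0 - η₀) * n⌉₊ : ℝ) ≤ (2 : ℝ) ^ (r * n))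
    (hI : (codeMax n s : ℝ) ≤ Real.exp (n * τ))
    (hX : ((J : ℝ) + L + 1) * codeMax (n + 1) s ≤ Real.exp (n * τ))
    (C : Finset (Fin n → Bool)) (hC : ∀ x ∈ C, ∀ y ∈ C, x ≠ y → δ * n ≤ hammingDist x y) :
    ((fewMid C ((1 + η) * δ * n) ((x0 - η) * n) ((2 : ℝ) ^ (c * n))).card : ℝ)
      ≤ (2 : ℝ) ^ ((1 - H δ - c) * n) := by
  have hn : (0 : ℝ) < n := by
    have : 0 < n := by omega
    exact_mod_cast this
  have hn3' : (3 : ℝ) ≤ n := by exact_mod_cast hn3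
  rw [fewMid_eq C (by positivity) (by positivity)]
  obtain ⟨d, hd⟩ : ∃ d, d = ⌈δ * n⌉₊ := ⟨_, rfl⟩
  obtain ⟨b, hb⟩ : ∃ b, b = ⌊(1 + η) * δ * n⌋₊ := ⟨_, rfl⟩
  obtain ⟨e, he⟩ : ∃ e, e = ⌈(x0 - η) * n⌉₊ := ⟨_, rfl⟩
  obtain ⟨K, hK⟩ : ∃ K, K = ⌊(2 : ℝ) ^ (c * n)⌋₊ := ⟨_, rfl⟩
  rw [← hb, ← he, ← hK]
  have hxη : 0 ≤ x0 - η := by
    have : 0 < (1 + η) * δ := by positivity
    linarith
  have hd1 : δ * n ≤ d := by rw [hd]; exact Nat.le_ceil _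
  have hd2 : (d : ℝ) < δ * n + 1 := by rw [hd]; exact Nat.ceil_lt_add_one (by positivity)
  have hb1 : (b : ℝ) ≤ (1 + η) * δ * n := by rw [hb]; exact Nat.floor_le (by positivity)
  have he1 : (x0 - η) * n ≤ e := by rw [he]; exact Nat.le_ceil _
  have he2 : (e : ℝ) < (x0 - η) * n + 1 := by
    rw [he]; exact Nat.ceil_lt_add_one (mul_nonneg hxη hn.le)
  have hK1 : (K : ℝ) ≤ (2 : ℝ) ^ (c * n) := by rw [hK]; exact Nat.floor_le (by positivity)
  have hdpos : 1 ≤ d := by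
    rw [hd, Nat.one_le_ceil_iff]
    positivity
  have hd0 : (0 : ℝ) ≤ d := Nat.cast_nonneg d
  have hd2n : 2 * (d : ℝ) < n := by
    rw [div_le_iff₀ (by linarith)] at hb3
    have e1 : (n : ℝ) * (1 - 2 * δ) = n - 2 * (δ * n) := by ring
    rw [e1] at hb3
    linarith
  have hdn : d < n := by
    have : (d : ℝ) < n := by linarith
    exact_mod_cast this
  have hb2n : 2 * (b : ℝ) < n := by
    have := mul_lt_mul_of_pos_right hη2 hn
    linarith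
  have hbn' : 2 * b < n := by exact_mod_cast hb2n
  have hCd : IsCode d C := by
    intro x hx y hy hxy
    rw [hd]
    exact Nat.ceil_le.2 (hC x hx y hy hxy)
  obtain ⟨q1, q2⟩ := est1 h1 hx0 hη hs hn3' hη2 hη3 hη4 hL hd0 hd1 hd2n hb1 he1 he2
  have hbd : (b : ℝ) ≤ α ^ 2 * d := by
    rw [hα2]
    refine hb1.trans ?_
    rw [mul_assoc]
    exact mul_le_mul_of_nonneg_left hd1 (by linarith)
  have hmain := few_main (κ := K) (I := codeMax n s)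
    (W := J + codeMax (n + 1) (cosB α 1 J)) (L := L) hCd hdn hbn'.le q1
    (fun c' Q p1 p2 p3 => indep_one (s := s) hdpos hbn' hs.le hs1 q2 p1 p2 p3)
    (fun Q hQ => (clique_le (α := α) (J := J) hdpos hα1 hbd hJ hQ).1)
  have h4 := est4 (n := n) (L := L) hs1 hcos hX
  have hAe : (A n e : ℝ) ≤ (2 : ℝ) ^ (r * n) := by
    refine le_trans ?_ hAn
    have : A n e ≤ A n ⌈(x0 - η₀) * n⌉₊ := by
      apply A_anti
      rw [he]
      apply Nat.ceil_le_ceil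
      exact mul_le_mul_of_nonneg_right (by linarith) hn.le
    exact_mod_cast this
  have hmain' : ((few C b e K).card : ℝ) ≤
      (A n e : ℝ) * ((codeMax n s : ℝ) * (((J + codeMax (n + 1) (cosB α 1 J) + L).choose
        (J + codeMax (n + 1) (cosB α 1 J)) : ℕ) : ℝ) + 1) * ((K : ℝ) + 1) := by
    exact_mod_cast hmain
  exact est2 hg hn hgr hc hτ hbn hmain' (Nat.cast_nonneg _) (Nat.cast_nonneg _)
    (Nat.cast_nonneg _) (Nat.cast_nonneg _) hAe hI h4 hK1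

/-- **Middle distances.** -/
theorem middle {δ : ℝ} (h0 : 0 < δ) (h1 : δ < 1 / 2) :
    ∃ η c : ℝ, 0 < η ∧ 0 < c ∧ (1 + η) * δ < 2 * δ * (1 - δ) - η ∧
      ∀ᶠ n : ℕ in atTop, ∀ C : Finset (Fin n → Bool),
        (∀ x ∈ C, ∀ y ∈ C, x ≠ y → δ * n ≤ hammingDist x y) →
        ((fewMid C ((1 + η) * δ * n) ((2 * δ * (1 - δ) - η) * n) ((2 : ℝ) ^ (c * n))).card : ℝ)
          ≤ (2 : ℝ) ^ ((1 - H δ - c) * n) := by
  have hlog : 0 < Real.log 2 := Real.log_pos (by norm_num)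
  have h1δ : 0 < 1 - δ := by linarith
  obtain ⟨η₀, r, hη₀, hη₀x, hr, hA⟩ := exists_rate h0 h1
  have hx01 : 2 * δ * (1 - δ) < 1 / 2 := by
    nlinarith [sq_pos_of_pos (show 0 < 1 - 2 * δ by linarith)]
  obtain ⟨g, hg⟩ : ∃ g, g = (1 - H δ - r) * Real.log 2 := ⟨_, rfl⟩
  have hgp : 0 < g := by rw [hg]; exact mul_pos (by linarith) hlog
  obtain ⟨Γ, hΓ⟩ : ∃ Γ, Γ = (1 - 2 * δ) ^ 2 / (1 - δ) - (1 - 2 * (2 * δ * (1 - δ))) := ⟨_, rfl⟩
  have hΓp : 0 < Γ := by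
    have h2 : Γ = (1 - 2 * δ) ^ 2 * δ / (1 - δ) := by
      rw [hΓ]
      field_simp
      ring
    rw [h2]
    have : 0 < 1 - 2 * δ := by linarith
    positivity
  obtain ⟨L, hL⟩ := exists_nat_gt (2 / (Γ / 2))
  have hL' : 2 < ((L : ℝ) + 1) * (Γ / 2) := by
    rw [div_lt_iff₀ (by positivity)] at hL
    linarith
  obtain ⟨τ, hτd⟩ : ∃ τ, τ = g / (4 * ((L : ℝ) + 1)) := ⟨_, rfl⟩
  have hτ : 0 < τ := by rw [hτd]; positivity
  obtain ⟨v, hv0, hv1, hGv⟩ := G_small hτ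
  have hs0 : 0 < √v := Real.sqrt_pos.2 hv0
  have hs2 : √v ^ 2 = v := Real.sq_sqrt hv0.le
  have hs1 : √v < 1 := by
    rw [Real.sqrt_lt' one_pos]
    linarith
  have hsv : √v ^ 2 * (1 + 2 * v) ^ 2 < 4 * v * (1 + v) := by
    rw [hs2, mul_comm (4 : ℝ) v, mul_assoc v 4]
    apply mul_lt_mul_of_pos_left _ hv0
    nlinarith
  have hεp : 0 < τ - Pool.Agent.TH220.NT.G v := by linarith
  obtain ⟨η, hη, hηη₀, hη1, hη2, hη3, hη4, hη5⟩ := exists_eta (s := √v) (Γ := Γ) (η₀ := η₀)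
    h0 h1 hs0 hη₀ hΓp hΓ
  obtain ⟨J, hJ, hcos⟩ := est3 hη hs0 hs1 hη5
  have hcp : 0 < g / (8 * Real.log 2) := by positivity
  have hcg : g / (8 * Real.log 2) * Real.log 2 = g / 8 := by field_simp
  refine ⟨η, g / (8 * Real.log 2), hη, hcp, hη1, ?_⟩
  obtain ⟨N0, hN0⟩ := code_asym hv0 hsv hεp
  have hcl := code_asym' hv0 hsv hεp ((J : ℝ) + L + 1) (by positivity)
  have hbig : ∀ᶠ n : ℕ in atTop, Real.log 4 ≤ n * (g / 2) := by
    have : Tendsto (fun n : ℕ => (n : ℝ) * (g / 2)) atTop atTop :=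
      tendsto_natCast_atTop_atTop.atTop_mul_const (by positivity)
    exact this.eventually_ge_atTop _
  have hbig3 : ∀ᶠ n : ℕ in atTop, 3 / (1 - 2 * δ) ≤ n :=
    tendsto_natCast_atTop_atTop.eventually_ge_atTop _
  have hGe : Pool.Agent.TH220.NT.G v + (τ - Pool.Agent.TH220.NT.G v) = τ := by ring
  filter_upwards [hA, hcl, hbig, eventually_ge_atTop N0, eventually_ge_atTop 3, hbig3] with
    n hAn hcln hbn hnN hn3 hb3
  have hIb := hN0 n hnN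
  rw [hGe] at hcln hIb
  exact middle_n h0 h1 hx01 hη hηη₀ hs0 hs1 hn3 hb3 hη1 hη2 hη3 hη4 hL' hJ
    (by rw [Real.one_le_sqrt]; linarith) (Real.sq_sqrt (by linarith)) hcos hgp hg hcg hτd hbn hAn
    hIb hcln

end Pool.Agent.N474.MD
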