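import Pool.Agent.TH220.NT.Chain

/-! Binary words as vectors of signs; sets of words seen from one or two words
(for MP_0430e4_lc, middle distances). -/

set_option autoImplicit false

open scoped InnerProductSpace

namespace Pool.Agent.N474.MD

/-- the vector of the signs of a word -/
noncomputable def v {n : ℕ} (x : Fin n → Bool) : EuclideanSpace ℝ (Fin n) :=
  WithLp.toLp 2 (fun i => if x i then (-1 : ℝ) else 1)

theorem inner_v {n : ℕ} (x y : Fin n → Bool) : ⟪v x, v y⟫_ℝ = n - 2 * hammingDist x y := by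
  classical
  rw [PiLp.inner_apply]
  have h : ∀ i : Fin n, ⟪(v x) i, (v y) i⟫_ℝ = 1 - 2 * (if x i ≠ y i then (1 : ℝ) else 0) := by
    intro i
    simp only [v]
    cases hx : x i <;> cases hy : y i <;> simp <;> norm_num
  rw [Finset.sum_congr rfl (fun i _ => h i), Finset.sum_sub_distrib, ← Finset.mul_sum,
    Finset.sum_boole]
  simp [hammingDist]

theorem inner_self_v {n : ℕ} (x : Fin n → Bool) : ⟪v x, v x⟫_ℝ = n := by
  rw [inner_v]; simp

theorem norm_v_sq {n : ℕ} (x : Fin n → Bool) : ‖v x‖ ^ 2 = n := by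
  rw [← real_inner_self_eq_norm_sq, inner_self_v]

/-- the sum of the vectors of a code -/
theorem norm_sum_le {n e : ℕ} {P : Finset (Fin n → Bool)}
    (hP : ∀ y ∈ P, ∀ y' ∈ P, y ≠ y' → e ≤ hammingDist y y') :
    ‖∑ y ∈ P, v y‖ ^ 2 ≤ P.card * n + P.card * (P.card - 1) * ((n : ℝ) - 2 * e) := by
  classical
  rw [← real_inner_self_eq_norm_sq, sum_inner]
  have h : ∀ y ∈ P, ⟪v y, ∑ y' ∈ P, v y'⟫_ℝ ≤ n + (P.card - 1) * ((n : ℝ) - 2 * e) := by
    intro y hy
    rw [inner_sum, ← Finset.add_sum_erase P _ hy, inner_self_v]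
    have h2 : ∑ y' ∈ P.erase y, ⟪v y, v y'⟫_ℝ ≤ ∑ _y' ∈ P.erase y, ((n : ℝ) - 2 * e) := by
      apply Finset.sum_le_sum
      intro y' hy'
      rw [inner_v]
      have := hP y hy y' (Finset.mem_of_mem_erase hy') (Finset.ne_of_mem_erase hy').symm
      have : (e : ℝ) ≤ hammingDist y y' := by exact_mod_cast this
      linarith
    rw [Finset.sum_const, Finset.card_erase_of_mem hy, nsmul_eq_mul] at h2
    have h3 : ((P.card - 1 : ℕ) : ℝ) = P.card - 1 := by
      have : 0 < P.card := Finset.card_pos.2 ⟨y, hy⟩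
      push_cast [Nat.cast_sub this]
      simp
    rw [h3] at h2
    linarith
  calc ∑ y ∈ P, ⟪v y, ∑ y' ∈ P, v y'⟫_ℝ ≤ ∑ _y ∈ P, (n + (P.card - 1) * ((n : ℝ) - 2 * e)) :=
        Finset.sum_le_sum h
    _ = _ := by rw [Finset.sum_const, nsmul_eq_mul]; ring

/-- Words at distance at most `b` from two words which are at distance at least `d` from each
other, and at distance at least `e` from each other. -/
theorem indep_two {n d b e : ℕ} {c z : Fin n → Bool} {P : Finset (Fin n → Bool)}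
    (hdn : d < n) (hbn : 2 * b ≤ n) (hcz : d ≤ hammingDist c z)
    (hc : ∀ y ∈ P, hammingDist c y ≤ b) (hz : ∀ y ∈ P, hammingDist z y ≤ b)
    (hP : ∀ y ∈ P, ∀ y' ∈ P, y ≠ y' → e ≤ hammingDist y y') :
    (P.card : ℝ) * (((n : ℝ) - 2 * b) ^ 2 / (n - d) - (n - 2 * e)) ≤ 2 * e := by
  classical
  have hdn' : (0 : ℝ) < (n : ℝ) - d := by
    have : (d : ℝ) < n := by exact_mod_cast hdn
    linarith
  have hbn' : (0 : ℝ) ≤ (n : ℝ) - 2 * b := by
    have : (2 * b : ℝ) ≤ n := by exact_mod_cast hbn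
    linarith
  set m : ℝ := (P.card : ℝ) with hm
  have hm0 : 0 ≤ m := Nat.cast_nonneg _
  set p : ℝ := ((n : ℝ) - 2 * b) / (2 * (n - d)) with hp
  have hp0 : 0 ≤ p := by positivity
  have h1 := norm_sum_le hP
  rw [← hm] at h1
  have h2 : ∀ c' : Fin n → Bool, (∀ y ∈ P, hammingDist c' y ≤ b) →
      m * ((n : ℝ) - 2 * b) ≤ ⟪∑ y ∈ P, v y, v c'⟫_ℝ := by
    intro c' hc'
    rw [sum_inner]
    calc m * ((n : ℝ) - 2 * b) = ∑ _y ∈ P, ((n : ℝ) - 2 * b) := by
          rw [Finset.sum_const, nsmul_eq_mul]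
      _ ≤ _ := by
          apply Finset.sum_le_sum
          intro y hy
          rw [inner_v, hammingDist_comm]
          have : (hammingDist c' y : ℝ) ≤ b := by exact_mod_cast hc' y hy
          linarith
  have h3 := h2 c hc
  have h4 := h2 z hz
  have h5 : ‖v c + v z‖ ^ 2 ≤ 4 * ((n : ℝ) - d) := by
    rw [@norm_add_sq_real, norm_v_sq, norm_v_sq, inner_v]
    have : (d : ℝ) ≤ hammingDist c z := by exact_mod_cast hcz
    linarith
  have h6 : 0 ≤ ‖∑ y ∈ P, v y - (m * p) • (v c + v z)‖ ^ 2 := by positivity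
  rw [@norm_sub_sq_real, real_inner_smul_right, inner_add_right, norm_smul, mul_pow,
    Real.norm_of_nonneg (by positivity)] at h6
  have h7 : m * p * (m * ((n : ℝ) - 2 * b) + m * ((n : ℝ) - 2 * b))
      ≤ m * p * (⟪∑ y ∈ P, v y, v c⟫_ℝ + ⟪∑ y ∈ P, v y, v z⟫_ℝ) :=
    mul_le_mul_of_nonneg_left (by linarith) (by positivity)
  have h8 : (m * p) ^ 2 * ‖v c + v z‖ ^ 2 ≤ (m * p) ^ 2 * (4 * ((n : ℝ) - d)) :=
    mul_le_mul_of_nonneg_left h5 (by positivity)
  have e1 : (m * p) ^ 2 * (4 * ((n : ℝ) - d)) = m ^ 2 * (((n : ℝ) - 2 * b) ^ 2 / (n - d)) := by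
    rw [hp]; field_simp; ring
  have e2 : m * p * (m * ((n : ℝ) - 2 * b) + m * ((n : ℝ) - 2 * b))
      = m ^ 2 * (((n : ℝ) - 2 * b) ^ 2 / (n - d)) := by
    rw [hp]; field_simp; ring
  rcases hm0.eq_or_lt with h0 | h0
  · rw [← h0]; simp
  · have h9 : m * (m * (((n : ℝ) - 2 * b) ^ 2 / (n - d) - (n - 2 * e))) ≤ m * (2 * e) := by
      nlinarith
    exact le_of_mul_le_mul_left h9 h0

/-- Words in a thin shell about `c` at distance at least `e` from each other: projection to the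
orthogonal complement of `c`. -/
theorem indep_one {n d b e : ℕ} {c : Fin n → Bool} {P : Finset (Fin n → Bool)} {s : ℝ}
    (hd : 1 ≤ d) (hbn : 2 * b < n) (hs0 : 0 ≤ s) (hs1 : s < 1)
    (hs : (n : ℝ) - 2 * e - ((n : ℝ) - 2 * b) ^ 2 / n ≤ s * (4 * d * (n - d) / n))
    (hc1 : ∀ y ∈ P, d ≤ hammingDist c y) (hc : ∀ y ∈ P, hammingDist c y ≤ b)
    (hP : ∀ y ∈ P, ∀ y' ∈ P, y ≠ y' → e ≤ hammingDist y y') :
    P.card ≤ Pool.Agent.TH220.NT.codeMax n s := by
  classical
  rcases P.eq_empty_or_nonempty with rfl | ⟨y0, hy0⟩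
  · simp
  have hdb : d ≤ b := (hc1 y0 hy0).trans (hc y0 hy0)
  have hn0 : (0 : ℝ) < n := by
    have : 0 < n := by omega
    exact_mod_cast this
  have hd1 : (1 : ℝ) ≤ d := by exact_mod_cast hd
  have hb' : 2 * (b : ℝ) < n := by exact_mod_cast hbn
  have hdb' : (d : ℝ) ≤ b := by exact_mod_cast hdb
  set w : (Fin n → Bool) → EuclideanSpace ℝ (Fin n) :=
    fun y => v y - (((n : ℝ) - 2 * hammingDist c y) / n) • v c with hw
  have hin : ∀ y y' : Fin n → Bool, ⟪w y, w y'⟫_ℝ = (n : ℝ) - 2 * hammingDist y y'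
      - ((n : ℝ) - 2 * hammingDist c y) * ((n : ℝ) - 2 * hammingDist c y') / n := by
    intro y y'
    simp only [hw]
    rw [inner_sub_left, inner_sub_right, inner_sub_right, real_inner_smul_left,
      real_inner_smul_left, real_inner_smul_right, real_inner_smul_right, inner_v, inner_v,
      inner_v, inner_v, hammingDist_self, hammingDist_comm y c]
    field_simp
    push_cast
    ring
  have hnorm : ∀ y ∈ P, 4 * (d : ℝ) * (n - d) / n ≤ ‖w y‖ ^ 2 := by
    intro y hy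
    rw [← real_inner_self_eq_norm_sq, hin, hammingDist_self]
    have a1 : (d : ℝ) ≤ hammingDist c y := by exact_mod_cast hc1 y hy
    have a2 : (hammingDist c y : ℝ) ≤ b := by exact_mod_cast hc y hy
    rw [← sub_nonneg]
    have : (n : ℝ) - 2 * ((0 : ℕ) : ℝ) - ((n : ℝ) - 2 * hammingDist c y) *
        ((n : ℝ) - 2 * hammingDist c y) / n - 4 * (d : ℝ) * (n - d) / n
        = 4 * ((hammingDist c y - d) * (n - hammingDist c y - d)) / n := by
      push_cast
      field_simp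
      ring
    rw [this]
    apply div_nonneg _ hn0.le
    have : 0 ≤ ((hammingDist c y : ℝ) - d) * (n - hammingDist c y - d) :=
      mul_nonneg (by linarith) (by linarith)
    linarith
  have hlow : 0 < 4 * (d : ℝ) * (n - d) / n := by
    apply div_pos _ hn0
    have : (0 : ℝ) < n - d := by linarith
    positivity
  have hwpos : ∀ y ∈ P, 0 < ‖w y‖ := by
    intro y hy
    have := hnorm y hy
    by_contra hcon
    have h0 : ‖w y‖ = 0 := le_antisymm (not_lt.1 hcon) (norm_nonneg _)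
    rw [h0] at this
    norm_num at this
    linarith
  have hne : ∀ y ∈ P, ∀ y' ∈ P, y ≠ y' →
      ⟪(‖w y‖⁻¹) • w y, (‖w y'‖⁻¹) • w y'⟫_ℝ ≤ s := by
    intro y hy y' hy' hyy
    rw [real_inner_smul_left, real_inner_smul_right]
    have h1 := hwpos y hy
    have h2 := hwpos y' hy'
    have h3 : ⟪w y, w y'⟫_ℝ ≤ s * (4 * d * (n - d) / n) := by
      refine le_trans ?_ hs
      rw [hin]
      have a1 : (e : ℝ) ≤ hammingDist y y' := by exact_mod_cast hP y hy y' hy' hyy
      have a2 : (hammingDist c y : ℝ) ≤ b := by exact_mod_cast hc y hy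
      have a3 : (hammingDist c y' : ℝ) ≤ b := by exact_mod_cast hc y' hy'
      have a4 : ((n : ℝ) - 2 * b) ^ 2 / n ≤
          ((n : ℝ) - 2 * hammingDist c y) * ((n : ℝ) - 2 * hammingDist c y') / n := by
        apply div_le_div_of_nonneg_right _ hn0.le
        rw [sq]
        apply mul_le_mul <;> linarith
      linarith
    have h4 : 4 * (d : ℝ) * (n - d) / n ≤ ‖w y‖ * ‖w y'‖ := by
      have b1 := hnorm y hy
      have b2 := hnorm y' hy'
      have b3 : (4 * (d : ℝ) * (n - d) / n) ^ 2 ≤ (‖w y‖ * ‖w y'‖) ^ 2 := by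
        rw [mul_pow, sq (4 * (d : ℝ) * (n - d) / n)]
        exact mul_le_mul b1 b2 hlow.le (by positivity)
      exact (sq_le_sq₀ hlow.le (by positivity)).1 b3
    have h5 : ⟪w y, w y'⟫_ℝ ≤ s * (‖w y‖ * ‖w y'‖) := h3.trans (mul_le_mul_of_nonneg_left h4 hs0)
    calc ‖w y‖⁻¹ * (‖w y'‖⁻¹ * ⟪w y, w y'⟫_ℝ) = ⟪w y, w y'⟫_ℝ / (‖w y‖ * ‖w y'‖) := by
          field_simp
      _ ≤ s := by
          rw [div_le_iff₀ (by positivity)]
          exact h5
  have hself : ∀ y ∈ P, ‖(‖w y‖⁻¹) • w y‖ = 1 := by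
    intro y hy
    rw [norm_smul, norm_inv, norm_norm, inv_mul_cancel₀ (hwpos y hy).ne']
  have hinj : Set.InjOn (fun y => (‖w y‖⁻¹) • w y) P := by
    intro y hy y' hy' hyy
    by_contra hcon
    have h1 := hne y hy y' hy' hcon
    simp only at hyy
    rw [← hyy, real_inner_self_eq_norm_sq, hself y hy] at h1
    linarith
  rw [← Finset.card_image_of_injOn hinj]
  apply Pool.Agent.TH220.NT.le_codeMax hs1
  · intro x hx
    obtain ⟨y, hy, rfl⟩ := Finset.mem_image.1 hx
    exact hself y hy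
  · intro x hx x' hx' hxx
    obtain ⟨y, hy, rfl⟩ := Finset.mem_image.1 hx
    obtain ⟨y', hy', rfl⟩ := Finset.mem_image.1 hx'
    exact hne y hy y' hy' (fun h => hxx (by rw [h]))

/-- cliques: words with mutual distances between `d` and `b` -/
theorem clique_le {n d b J : ℕ} {α : ℝ} (hd : 1 ≤ d) (hα : 1 ≤ α) (hb : (b : ℝ) ≤ α ^ 2 * d)
    (hJ : 1 ≤ J) {Q : Finset (Fin n → Bool)}
    (h : ∀ x ∈ Q, ∀ y ∈ Q, x ≠ y → d ≤ hammingDist x y ∧ hammingDist x y ≤ b) :
    Q.card ≤ J + Pool.Agent.TH220.NT.codeMax (n + 1) (Pool.Agent.TH220.NT.cosB α 1 J) ∧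
      (b = d → Q.card ≤ n + 1) := by
  classical
  have hd' : (0 : ℝ) < d := by exact_mod_cast hd
  set r : ℝ := (2 * √d)⁻¹ with hr
  have hr0 : 0 < r := by positivity
  have hdist : ∀ x y : Fin n → Bool, dist (r • v x) (r • v y) ^ 2 = hammingDist x y / d := by
    intro x y
    rw [dist_eq_norm, ← smul_sub, norm_smul, Real.norm_of_nonneg hr0.le, mul_pow,
      @norm_sub_sq_real, norm_v_sq, norm_v_sq, inner_v, hr, inv_pow, mul_pow,
      Real.sq_sqrt hd'.le]
    field_simp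
    ring
  have hinj : Set.InjOn (fun x => r • v x) (Q : Set (Fin n → Bool)) := by
    intro x _ y _ hxy
    have h1 := hdist x y
    simp only at hxy
    rw [hxy, dist_self] at h1
    have h2 : (hammingDist x y : ℝ) = 0 := by
      have h3 : (hammingDist x y : ℝ) / d = 0 := by rw [← h1]; norm_num
      rcases div_eq_zero_iff.1 h3 with h4 | h4
      · exact h4
      · exact absurd h4 hd'.ne'
    exact hammingDist_eq_zero.1 (by exact_mod_cast h2)
  have hge : ∀ x ∈ Q, ∀ y ∈ Q, x ≠ y → 1 ≤ dist (r • v x) (r • v y) := by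
    intro x hx y hy hxy
    have h1 : (d : ℝ) ≤ hammingDist x y := by exact_mod_cast (h x hx y hy hxy).1
    have h2 : 1 ≤ dist (r • v x) (r • v y) ^ 2 := by
      rw [hdist, le_div_iff₀ hd']; linarith
    by_contra hcon
    push Not at hcon
    have : dist (r • v x) (r • v y) ^ 2 < 1 := by
      nlinarith [dist_nonneg (x := r • v x) (y := r • v y)]
    linarith
  have hle : ∀ x ∈ Q, ∀ y ∈ Q, x ≠ y → ∀ γ : ℝ, 0 ≤ γ → (b : ℝ) ≤ γ ^ 2 * d →
      dist (r • v x) (r • v y) ≤ γ := by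
    intro x hx y hy hxy γ hγ hbγ
    have h1 : (hammingDist x y : ℝ) ≤ b := by exact_mod_cast (h x hx y hy hxy).2
    have h2 : dist (r • v x) (r • v y) ^ 2 ≤ γ ^ 2 := by
      rw [hdist, div_le_iff₀ hd']; linarith
    exact (sq_le_sq₀ dist_nonneg hγ).1 h2
  rw [← Finset.card_image_of_injOn hinj]
  constructor
  · apply Pool.Agent.TH220.NT.clique_gen hα hJ
    intro x' hx' y' hy' hxy'
    obtain ⟨x, hx, rfl⟩ := Finset.mem_image.1 hx'
    obtain ⟨y, hy, rfl⟩ := Finset.mem_image.1 hy'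
    have hxy : x ≠ y := fun hh => hxy' (by rw [hh])
    exact ⟨hge x hx y hy hxy, hle x hx y hy hxy α (by linarith) hb⟩
  · intro hbd
    apply Pool.Agent.TH220.NT.clique_one
    intro x' hx' y' hy' hxy'
    obtain ⟨x, hx, rfl⟩ := Finset.mem_image.1 hx'
    obtain ⟨y, hy, rfl⟩ := Finset.mem_image.1 hy'
    have hxy : x ≠ y := fun hh => hxy' (by rw [hh])
    exact ⟨hge x hx y hy hxy, hle x hx y hy hxy 1 zero_le_one (by rw [hbd]; linarith)⟩

end Pool.Agent.N474.MD
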