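import Pool.Agent.N474.MD.Basic

/-! The combinatorial part: words of a code with few words at middle distances
(for MP_0430e4_lc). -/

set_option autoImplicit false

namespace Pool.Agent.N474.MD

/-- minimum distance at least `d` -/
def IsCode {n : ℕ} (d : ℕ) (C : Finset (Fin n → Bool)) : Prop :=
  ∀ x ∈ C, ∀ y ∈ C, x ≠ y → d ≤ hammingDist x y

/-- `A(n,d)`: the largest size of a binary code of length `n` with minimum distance at least `d`. -/
noncomputable def A (n d : ℕ) : ℕ :=
  sSup {k | ∃ C : Finset (Fin n → Bool),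
    (∀ x ∈ C, ∀ y ∈ C, x ≠ y → d ≤ hammingDist x y) ∧ C.card = k}

/-- `A(n,d,w)` -/
noncomputable def Aw (n d w : ℕ) : ℕ :=
  sSup {k | ∃ C : Finset (Fin n → Bool), (∀ x ∈ C, (Finset.univ.filter fun i => x i = true).card = w) ∧
    (∀ x ∈ C, ∀ y ∈ C, x ≠ y → d ≤ hammingDist x y) ∧ C.card = k}

theorem A_bdd (n d : ℕ) : BddAbove {k | ∃ C : Finset (Fin n → Bool),
    (∀ x ∈ C, ∀ y ∈ C, x ≠ y → d ≤ hammingDist x y) ∧ C.card = k} := by
  refine ⟨Fintype.card (Fin n → Bool), ?_⟩
  rintro k ⟨C, -, rfl⟩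
  exact Finset.card_le_univ C

theorem Aw_bdd (n d w : ℕ) : BddAbove {k | ∃ C : Finset (Fin n → Bool),
    (∀ x ∈ C, (Finset.univ.filter fun i => x i = true).card = w) ∧
    (∀ x ∈ C, ∀ y ∈ C, x ≠ y → d ≤ hammingDist x y) ∧ C.card = k} := by
  refine ⟨Fintype.card (Fin n → Bool), ?_⟩
  rintro k ⟨C, -, -, rfl⟩
  exact Finset.card_le_univ C

theorem card_le_A {n d : ℕ} {C : Finset (Fin n → Bool)} (h : IsCode d C) : C.card ≤ A n d :=
  le_csSup (A_bdd n d) ⟨C, h, rfl⟩

theorem card_le_Aw {n d w : ℕ} {C : Finset (Fin n → Bool)} (h : IsCode d C)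
    (hw : ∀ x ∈ C, (Finset.univ.filter fun i => x i = true).card = w) : C.card ≤ Aw n d w :=
  le_csSup (Aw_bdd n d w) ⟨C, hw, h, rfl⟩

/-- words at distance exactly `w` from a word -/
theorem card_le_Aw' {n d w : ℕ} {C : Finset (Fin n → Bool)} (c : Fin n → Bool) (h : IsCode d C)
    (hw : ∀ x ∈ C, hammingDist c x = w) : C.card ≤ Aw n d w := by
  classical
  set f : (Fin n → Bool) → (Fin n → Bool) := fun x i => xor (c i) (x i) with hf
  have hinj : Function.Injective f := by
    intro x y hxy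
    funext i
    have := congrFun hxy i
    simp only [hf] at this
    revert this
    cases c i <;> cases x i <;> cases y i <;> simp
  have hdist : ∀ x y, hammingDist (f x) (f y) = hammingDist x y := by
    intro x y
    unfold hammingDist
    congr 1
    ext i
    simp [hf]
  rw [← Finset.card_image_of_injective C hinj]
  apply card_le_Aw
  · intro x' hx' y' hy' hxy'
    obtain ⟨x, hx, rfl⟩ := Finset.mem_image.1 hx'
    obtain ⟨y, hy, rfl⟩ := Finset.mem_image.1 hy'
    rw [hdist]
    exact h x hx y hy (fun hh => hxy' (by rw [hh]))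
  · intro x' hx'
    obtain ⟨x, hx, rfl⟩ := Finset.mem_image.1 hx'
    rw [← hw x hx]
    unfold hammingDist
    congr 1
    ext i
    simp [hf]

open Classical in
/-- Words near `c` with mutual distances at most `b` or at least `e`: the bound obtained from
bounds for the independent sets, for the cliques, and for the independent sets seen from two
words. -/
theorem local_card {n b I W L : ℕ} {P : Finset (Fin n → Bool)}
    (hI : ∀ Q ⊆ P, (∀ x ∈ Q, ∀ y ∈ Q, x ≠ y → ¬ hammingDist x y ≤ b) → Q.card ≤ I)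
    (hW : ∀ Q ⊆ P, (∀ x ∈ Q, ∀ y ∈ Q, x ≠ y → hammingDist x y ≤ b) → Q.card ≤ W)
    (hL : ∀ z ∈ P, ∀ Q ⊆ (P.erase z).filter (fun y => hammingDist z y ≤ b),
      (∀ x ∈ Q, ∀ y ∈ Q, x ≠ y → ¬ hammingDist x y ≤ b) → Q.card ≤ L) :
    P.card ≤ I * (W + L).choose W := by
  have hs : ∀ x y : Fin n → Bool, hammingDist x y ≤ b → hammingDist y x ≤ b := by
    intro x y h
    rwa [hammingDist_comm]
  apply Pool.Agent.TH220.NT.greedy (fun x y : Fin n → Bool => hammingDist x y ≤ b) hs P I _ hI
  intro z hz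
  apply Pool.Agent.TH220.NT.ramsey (fun x y : Fin n → Bool => hammingDist x y ≤ b) hs _ W L le_rfl
  · intro Q hQ hQ2
    exact hW Q (hQ.trans ((Finset.filter_subset _ _).trans (Finset.erase_subset _ _))) hQ2
  · intro Q hQ hQ2
    exact hL z hz Q hQ hQ2

open Classical in
/-- The words of `C` which have at most `κ` words of `C` at distance strictly between `b` and
`e`. -/
noncomputable def few {n : ℕ} (C : Finset (Fin n → Bool)) (b e κ : ℕ) : Finset (Fin n → Bool) :=
  C.filter (fun x => (C.filter (fun y => b < hammingDist x y ∧ hammingDist x y < e)).card ≤ κ)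

open Classical in
/-- the global step -/
theorem few_card {n b e κ D : ℕ} {C : Finset (Fin n → Bool)}
    (hD : ∀ c ∈ C, ∀ P ⊆ C, c ∉ P → (∀ y ∈ P, hammingDist c y ≤ b) →
      (∀ y ∈ P, ∀ y' ∈ P, y ≠ y' → hammingDist y y' ≤ b ∨ e ≤ hammingDist y y') →
      P.card ≤ D) :
    (few C b e κ).card ≤ A n e * (D + 1) * (κ + 1) := by
  have hs : ∀ x y : Fin n → Bool, (b < hammingDist x y ∧ hammingDist x y < e) →
      (b < hammingDist y x ∧ hammingDist y x < e) := by
    intro x y h
    rwa [hammingDist_comm]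
  have hs2 : ∀ x y : Fin n → Bool, hammingDist x y ≤ b → hammingDist y x ≤ b := by
    intro x y h
    rwa [hammingDist_comm]
  have hfC : few C b e κ ⊆ C := Finset.filter_subset _ _
  apply Pool.Agent.TH220.NT.greedy
    (fun x y : Fin n → Bool => b < hammingDist x y ∧ hammingDist x y < e) hs (few C b e κ)
  · intro Q hQ hQ2
    have hQ3 : ∀ x ∈ Q, ∀ y ∈ Q, x ≠ y → hammingDist x y ≤ b ∨ e ≤ hammingDist x y := by
      intro x hx y hy hxy
      have := hQ2 x hx y hy hxy
      omega
    apply Pool.Agent.TH220.NT.greedy (fun x y : Fin n → Bool => hammingDist x y ≤ b) hs2 Q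
    · intro Q' hQ' hQ'2
      apply card_le_A
      intro x hx y hy hxy
      rcases hQ3 x (hQ' hx) y (hQ' hy) hxy with h | h
      · exact absurd h (hQ'2 x hx y hy hxy)
      · exact h
    · intro q hq
      apply Nat.succ_le_succ
      apply hD q (hfC (hQ hq))
      · exact ((Finset.filter_subset _ _).trans (Finset.erase_subset _ _)).trans (hQ.trans hfC)
      · intro h
        exact Finset.notMem_erase q Q (Finset.mem_filter.1 h).1
      · intro y hy
        exact (Finset.mem_filter.1 hy).2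
      · intro y hy y' hy' hyy
        exact hQ3 y (Finset.mem_of_mem_erase (Finset.mem_filter.1 hy).1) y'
          (Finset.mem_of_mem_erase (Finset.mem_filter.1 hy').1) hyy
  · intro q hq
    apply Nat.succ_le_succ
    refine le_trans (Finset.card_le_card ?_) (Finset.mem_filter.1 hq).2
    intro y hy
    obtain ⟨h1, h2⟩ := Finset.mem_filter.1 hy
    exact Finset.mem_filter.2 ⟨hfC (Finset.mem_of_mem_erase h1), h2⟩

/-- **Finite inequality, cliques and shells bounded by parameters.** -/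
theorem few_main {n d b e κ I W L : ℕ} {C : Finset (Fin n → Bool)} (hC : IsCode d C)
    (hdn : d < n) (hbn : 2 * b ≤ n)
    (hL : 2 * (e : ℝ) < (L + 1) * (((n : ℝ) - 2 * b) ^ 2 / (n - d) - (n - 2 * e)))
    (hI : ∀ c : Fin n → Bool, ∀ Q : Finset (Fin n → Bool), (∀ y ∈ Q, d ≤ hammingDist c y) →
      (∀ y ∈ Q, hammingDist c y ≤ b) → IsCode e Q → Q.card ≤ I)
    (hW : ∀ Q : Finset (Fin n → Bool), (∀ x ∈ Q, ∀ y ∈ Q, x ≠ y →
      d ≤ hammingDist x y ∧ hammingDist x y ≤ b) → Q.card ≤ W) :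
    (few C b e κ).card ≤ A n e * (I * (W + L).choose W + 1) * (κ + 1) := by
  classical
  apply few_card
  intro c hc P hP hcP h1 h2
  have hcy : ∀ y ∈ P, d ≤ hammingDist c y := by
    intro y hy
    exact hC c hc y (hP hy) (fun h => hcP (h ▸ hy))
  have hind : ∀ Q ⊆ P, (∀ x ∈ Q, ∀ y ∈ Q, x ≠ y → ¬ hammingDist x y ≤ b) → IsCode e Q := by
    intro Q hQ hQ2 x hx y hy hxy
    rcases h2 x (hQ hx) y (hQ hy) hxy with h | h
    · exact absurd h (hQ2 x hx y hy hxy)
    · exact h
  apply local_card (b := b)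
  · intro Q hQ hQ2
    exact hI c Q (fun y hy => hcy y (hQ hy)) (fun y hy => h1 y (hQ hy)) (hind Q hQ hQ2)
  · intro Q hQ hQ2
    apply hW Q
    intro x hx y hy hxy
    exact ⟨hC x (hP (hQ hx)) y (hP (hQ hy)) hxy, hQ2 x hx y hy hxy⟩
  · intro z hz Q hQ hQ2
    have hQP : Q ⊆ P := hQ.trans ((Finset.filter_subset _ _).trans (Finset.erase_subset _ _))
    have h3 := indep_two (c := c) (z := z) (d := d) (b := b) (e := e) hdn hbn (hcy z hz)
      (fun y hy => h1 y (hQP hy)) (fun y hy => (Finset.mem_filter.1 (hQ hy)).2) (hind Q hQP hQ2)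
    by_contra hcon
    push Not at hcon
    have h4 : ((L : ℝ) + 1) ≤ Q.card := by exact_mod_cast hcon
    have h5 : 0 < ((n : ℝ) - 2 * b) ^ 2 / (n - d) - (n - 2 * e) := by
      by_contra h6
      push Not at h6
      have h7 : ((L : ℝ) + 1) * (((n : ℝ) - 2 * b) ^ 2 / (n - d) - (n - 2 * e)) ≤ 0 :=
        mul_nonpos_of_nonneg_of_nonpos (by positivity) h6
      have h8 : (0 : ℝ) ≤ 2 * e := by positivity
      linarith
    have := mul_le_mul_of_nonneg_right h4 h5.le
    linarith

/-- **The touching case.** -/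
theorem few_touch {n d e κ L : ℕ} {C : Finset (Fin n → Bool)} (hC : IsCode d C)
    (hd : 1 ≤ d) (hdn : 2 * d < n)
    (hL : 2 * (e : ℝ) < (L + 1) * (((n : ℝ) - 2 * d) ^ 2 / (n - d) - (n - 2 * e))) :
    (few C d e κ).card ≤ A n e * (Aw n e d * (n + 1 + L).choose (n + 1) + 1) * (κ + 1) := by
  apply few_main hC (by omega) (by omega) hL
  · intro c Q h1 h2 h3
    exact card_le_Aw' c h3 (fun y hy => le_antisymm (h2 y hy) (h1 y hy))
  · intro Q hQ
    exact (clique_le (α := 1) (J := 1) hd le_rfl (by simp) le_rfl hQ).2 rfl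

end Pool.Agent.N474.MD
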