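import Pool.Agent.N474.MD.Comb
import Pool.Agent.TH220.NT.Asym
import Pool.Agent.Results.MP_0430e4_lc.MeasureBound

/-! The rate just below the Elias distance `2 δ (1 - δ)` is below the Gilbert-Varshamov rate. -/

set_option autoImplicit false

open Filter
open scoped Topology

namespace Pool.Agent.N474.MD

/-- The binary entropy function `H₂(x) = - x log₂ x - (1 - x) log₂ (1 - x)`. -/
noncomputable def H (x : ℝ) : ℝ := -x * Real.logb 2 x - (1 - x) * Real.logb 2 (1 - x)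

open Pool.Agent.TH590.FF

theorem br_zero {δ : ℝ} (h1 : δ < 1 / 2) :
    br (2 * δ * (1 - δ)) 0 = (1 - H δ) * Real.log 2 := by
  have hlog : 0 < Real.log 2 := Real.log_pos (by norm_num)
  unfold br
  simp only [ne_eq, OfNat.ofNat_ne_zero, not_false_eq_true, zero_pow, mul_zero, add_zero,
    zero_add, kk_zero]
  have e : kk (2 * (2 * δ * (1 - δ))) = H δ * Real.log 2 := by
    unfold kk en H Real.negMulLog Real.logb
    have e1 : √(1 - 2 * (2 * δ * (1 - δ))) = 1 - 2 * δ := by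
      rw [show 1 - 2 * (2 * δ * (1 - δ)) = (1 - 2 * δ) ^ 2 by ring]
      exact Real.sqrt_sq (by linarith)
    rw [e1]
    have e2 : (1 + (1 - 2 * δ)) / 2 = 1 - δ := by ring
    have e3 : (1 - (1 - 2 * δ)) / 2 = δ := by ring
    rw [e2, e3]
    field_simp
    ring
  rw [e]
  ring

/-- The limit superior of the rates at a distance slightly below `2 δ (1 - δ)`. -/
theorem exists_rate {δ : ℝ} (h0 : 0 < δ) (h1 : δ < 1 / 2) :
    ∃ η₀ r : ℝ, 0 < η₀ ∧ η₀ < 2 * δ * (1 - δ) ∧ r < 1 - H δ ∧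
      ∀ᶠ n : ℕ in atTop, (A n ⌈(2 * δ * (1 - δ) - η₀) * n⌉₊ : ℝ) ≤ (2 : ℝ) ^ (r * n) := by
  have hlog : 0 < Real.log 2 := Real.log_pos (by norm_num)
  set x0 := 2 * δ * (1 - δ) with hx0
  have hx0p : 0 < x0 := by
    have : 0 < 1 - δ := by linarith
    positivity
  have hx01 : x0 < 1 / 2 := by nlinarith [sq_nonneg (1 - 2 * δ), sq_pos_of_pos (show 0 < 1 - 2 * δ by linarith)]
  obtain ⟨u, hu0, hu1, hu2⟩ := br_lt hx0p hx01
  have hcont : Continuous (fun x : ℝ => br x u) := by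
    unfold br
    exact (continuous_const).sub (kk_cont.comp (by fun_prop))
  have hev : ∀ᶠ x in 𝓝 x0, br x u < br x0 0 :=
    hcont.continuousAt.eventually_lt continuousAt_const hu2
  obtain ⟨ρ, hρ, hball⟩ := Metric.eventually_nhds_iff.1 hev
  set η₀ := min (ρ / 2) (x0 / 2) with hη₀
  have hη0 : 0 < η₀ := lt_min (by linarith) (by linarith)
  have hη1 : η₀ ≤ ρ / 2 := min_le_left _ _
  have hη2 : η₀ ≤ x0 / 2 := min_le_right _ _
  have hb := hball (y := x0 - η₀) (by
    rw [Real.dist_eq, sub_sub_cancel_left, abs_neg, abs_of_pos hη0]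
    linarith)
  have hxp : 0 < x0 - η₀ := by linarith
  have hR := (Pool.Agent.Results.MP_0430e4_lc.MeasureBound.result).1 (x0 - η₀) hxp (by linarith)
  have hB : Pool.Agent.Results.MP_0430e4_lc.MeasureBound.B (x0 - η₀) ≤
      br (x0 - η₀) u / Real.log 2 := by
    have hc := (isCompact_Icc (a := (0 : ℝ)) (b := 1 - 2 * (x0 - η₀))).bddBelow_image
      (br_cont (x0 - η₀)).continuousOn
    obtain ⟨m, hm⟩ := hc
    refine csInf_le ⟨m / Real.log 2, ?_⟩ ⟨u, hu0, by linarith, ?_⟩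
    · rintro b ⟨t, ht0, ht1, rfl⟩
      rw [Pool.Agent.Results.MP_0430e4_lc.MeasureBound.bracket_eq]
      apply div_le_div_of_nonneg_right _ hlog.le
      exact hm ⟨t, ⟨ht0.le, ht1⟩, rfl⟩
    · exact (Pool.Agent.Results.MP_0430e4_lc.MeasureBound.bracket_eq _ _).symm
  have hlt : Pool.Agent.Results.MP_0430e4_lc.MeasureBound.R (x0 - η₀) < 1 - H δ := by
    have h3 : br (x0 - η₀) u / Real.log 2 < 1 - H δ := by
      rw [div_lt_iff₀ hlog, ← br_zero h1]
      exact hb
    linarith [hR.1, hR.2]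
  obtain ⟨r, hr1, hr2⟩ := exists_between hlt
  refine ⟨η₀, r, hη0, by linarith, hr2, ?_⟩
  have hbd : IsBoundedUnder (· ≤ ·) atTop (fun n : ℕ =>
      Real.logb 2 (Pool.Agent.Results.MP_0430e4_lc.MeasureBound.A n ⌈(x0 - η₀) * n⌉₊) / n) := by
    refine ⟨1, ?_⟩
    rw [eventually_map]
    filter_upwards [eventually_ge_atTop 1] with n hn
    have hnR : (0 : ℝ) < n := by exact_mod_cast hn
    rw [div_le_one hnR]
    have hA : (0 : ℝ) < Pool.Agent.Results.MP_0430e4_lc.MeasureBound.A n ⌈(x0 - η₀) * n⌉₊ := by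
      exact_mod_cast Pool.Agent.Results.MP_0430e4_lc.MeasureBound.one_le_A n _
    rw [Real.logb_le_iff_le_rpow (by norm_num) hA, Real.rpow_natCast]
    obtain ⟨C, -, hC⟩ := Pool.Agent.Results.MP_0430e4_lc.MeasureBound.A_mem n ⌈(x0 - η₀) * n⌉₊
    rw [← hC]
    have := Finset.card_le_univ C
    rw [Fintype.card_fun, Fintype.card_bool, Fintype.card_fin] at this
    exact_mod_cast this
  have hev2 := eventually_lt_of_limsup_lt (f := atTop) (u := fun n : ℕ =>
      Real.logb 2 (Pool.Agent.Results.MP_0430e4_lc.MeasureBound.A n ⌈(x0 - η₀) * n⌉₊) / n)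
      (b := r) hr1 hbd
  filter_upwards [hev2, eventually_ge_atTop 1] with n hn hn1
  have hnR : (0 : ℝ) < n := by exact_mod_cast hn1
  have hA : (0 : ℝ) < Pool.Agent.Results.MP_0430e4_lc.MeasureBound.A n ⌈(x0 - η₀) * n⌉₊ := by
    exact_mod_cast Pool.Agent.Results.MP_0430e4_lc.MeasureBound.one_le_A n _
  rw [div_lt_iff₀ hnR, Real.logb_lt_iff_lt_rpow (by norm_num) hA] at hn
  exact hn.le

theorem A_anti {n d e : ℕ} (hde : d ≤ e) : A n e ≤ A n d := by
  obtain ⟨C, hC, hcard⟩ := Pool.Agent.Results.MP_0430e4_lc.MeasureBound.A_mem n e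
  have h1 : C.card ≤ A n d := card_le_A (fun x hx y hy hxy => hde.trans (hC x hx y hy hxy))
  rw [hcard] at h1
  exact h1

theorem G_small {τ : ℝ} (hτ : 0 < τ) :
    ∃ v : ℝ, 0 < v ∧ v < 1 / 2 ∧ Pool.Agent.TH220.NT.G v < τ := by
  have hc : Continuous (fun v : ℝ => Real.negMulLog v - Real.negMulLog (1 + v)) :=
    Real.continuous_negMulLog.sub (Real.continuous_negMulLog.comp (by fun_prop))
  have h0 : Real.negMulLog 0 - Real.negMulLog (1 + 0) < τ := by simpa using hτ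
  have hev : ∀ᶠ v in 𝓝 (0 : ℝ), Real.negMulLog v - Real.negMulLog (1 + v) < τ :=
    hc.continuousAt.eventually_lt continuousAt_const h0
  have hev2 : ∀ᶠ v in 𝓝 (0 : ℝ), v < 1 / 2 := eventually_lt_nhds (by norm_num)
  obtain ⟨v, ⟨h1, h2⟩, h3⟩ := (((hev.and hev2).filter_mono
    (nhdsWithin_le_nhds (s := Set.Ioi 0))).and self_mem_nhdsWithin).exists
  refine ⟨v, h3, h2, ?_⟩
  unfold Pool.Agent.TH220.NT.G
  unfold Real.negMulLog at h1
  linarith

end Pool.Agent.N474.MD
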